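import Pool.Agent.Helper15.T4.Stmts

/-! # T4: the inequality for the second model -/

set_option autoImplicit false

namespace Pool.Agent.Helper91.T4

open Finset Pool.Agent.Helper15.T4

section comb

/-- the weights of the pairs (edge colour, vertex colour) -/
noncomputable def mm (G : L1 → ℝ) (d c : Fin 4) : ℝ :=
  ∑ j : Fin 3, if d.succAbove j = c then G (d, j) else 0

theorem mm_self (G : L1 → ℝ) (d : Fin 4) : mm G d d = 0 := by
  unfold mm
  refine sum_eq_zero fun j _ => if_neg (Fin.succAbove_ne d j)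

theorem mm_succ (G : L1 → ℝ) (d : Fin 4) (j : Fin 3) : mm G d (d.succAbove j) = G (d, j) := by
  unfold mm
  have h : ∀ k : Fin 3, (if d.succAbove k = d.succAbove j then G (d, k) else 0) =
      if k = j then G (d, k) else 0 := by
    intro k
    by_cases hk : k = j
    · rw [hk]
      simp
    · rw [if_neg hk, if_neg]
      intro h
      exact hk (Fin.succAbove_right_injective h)
  rw [sum_congr rfl fun k _ => h k]
  simp

theorem mm_nonneg (G : L1 → ℝ) (hG : ∀ a, 0 ≤ G a) (d c : Fin 4) : 0 ≤ mm G d c := by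
  unfold mm
  refine sum_nonneg fun j _ => ?_
  split_ifs
  · exact hG _
  · exact le_rfl

theorem sum_erase4 (f : Fin 4 → ℝ) (d : Fin 4) :
    ∑ c ∈ univ.erase d, f c = ∑ j : Fin 3, f (d.succAbove j) := by
  have h1 := add_sum_erase univ f (mem_univ d)
  have h2 := Fin.sum_univ_succAbove f d
  linarith

/-- distinct -/
noncomputable def dis (a b c : Fin 4) : ℝ := if a ≠ b ∧ a ≠ c ∧ b ≠ c then 1 else 0

/-- equal -/
noncomputable def dl (u c : Fin 4) : ℝ := if u = c then 1 else 0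

theorem w1_eq (a b e : L1) :
    w1 a b e = ∑ c, dis a.1 b.1 e.1 * (dl (vc a) c * dl (vc b) c * dl (vc e) c) := by
  rw [← mul_sum]
  have h1 : ∀ c, dl (vc a) c * dl (vc b) c * dl (vc e) c =
      if vc a = c then dl (vc b) c * dl (vc e) c else 0 := by
    intro c
    by_cases h : vc a = c
    · rw [if_pos h]
      unfold dl
      rw [if_pos h, one_mul]
    · rw [if_neg h]
      unfold dl
      rw [if_neg h]
      ring
  rw [sum_congr rfl fun c _ => h1 c, sum_ite_eq, if_pos (mem_univ _)]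
  unfold w1 dis dl
  by_cases h2 : a.1 ≠ b.1 ∧ a.1 ≠ e.1 ∧ b.1 ≠ e.1
  · rw [if_pos h2, one_mul]
    by_cases h3 : vc b = vc a
    · by_cases h4 : vc e = vc a
      · rw [if_pos h3, if_pos h4, if_pos ⟨h2.1, h2.2.1, h2.2.2, h3.symm, h4.symm⟩]
        ring
      · rw [if_neg h4, if_neg (fun h => h4 h.2.2.2.2.symm)]
        ring
    · rw [if_neg h3, if_neg (fun h => h3 h.2.2.2.1.symm)]
      ring
  · rw [if_neg h2, if_neg (fun h => h2 ⟨h.1, h.2.1, h.2.2.1⟩)]
    ring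

theorem tri (W : Fin 4 → Fin 4 → Fin 4 → ℝ) (A : L1 → ℝ) :
    ∑ a : L1, ∑ b : L1, ∑ e : L1, W a.1 b.1 e.1 * (A a * A b * A e) =
      ∑ d₁, ∑ d₂, ∑ d₃, W d₁ d₂ d₃ *
        ((∑ j, A (d₁, j)) * (∑ j, A (d₂, j)) * (∑ j, A (d₃, j))) := by
  rw [Fintype.sum_prod_type]
  refine sum_congr rfl fun d₁ _ => ?_
  have h1 : ∀ j₁ : Fin 3, ∑ b : L1, ∑ e : L1, W d₁ b.1 e.1 * (A (d₁, j₁) * A b * A e) =
      ∑ d₂, ∑ d₃, W d₁ d₂ d₃ * (A (d₁, j₁) * (∑ j, A (d₂, j)) * (∑ j, A (d₃, j))) := by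
    intro j₁
    rw [Fintype.sum_prod_type]
    refine sum_congr rfl fun d₂ _ => ?_
    have h2 : ∀ j₂ : Fin 3, ∑ e : L1, W d₁ d₂ e.1 * (A (d₁, j₁) * A (d₂, j₂) * A e) =
        ∑ d₃, W d₁ d₂ d₃ * (A (d₁, j₁) * A (d₂, j₂) * (∑ j, A (d₃, j))) := by
      intro j₂
      rw [Fintype.sum_prod_type]
      refine sum_congr rfl fun d₃ _ => ?_
      rw [mul_sum, mul_sum]
    rw [sum_congr rfl fun j₂ _ => h2 j₂, sum_comm]
    refine sum_congr rfl fun d₃ _ => ?_
    rw [← mul_sum, ← sum_mul, ← mul_sum]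
  rw [sum_congr rfl fun j₁ _ => h1 j₁, sum_comm]
  refine sum_congr rfl fun d₂ _ => ?_
  rw [sum_comm]
  refine sum_congr rfl fun d₃ _ => ?_
  rw [← mul_sum, ← sum_mul, ← sum_mul]

theorem six (g : Fin 4 → ℝ) (c : Fin 4) (hc : g c = 0) :
    ∑ d₁, ∑ d₂, ∑ d₃, dis d₁ d₂ d₃ * (g d₁ * g d₂ * g d₃) = 6 * ∏ d ∈ univ.erase c, g d := by
  have e0 : (univ.erase (0 : Fin 4)) = {1, 2, 3} := by decide
  have e1 : (univ.erase (1 : Fin 4)) = {0, 2, 3} := by decide
  have e2 : (univ.erase (2 : Fin 4)) = {0, 1, 3} := by decide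
  have e3 : (univ.erase (3 : Fin 4)) = {0, 1, 2} := by decide
  fin_cases c
  · change g 0 = 0 at hc
    change _ = 6 * ∏ d ∈ univ.erase (0 : Fin 4), g d
    rw [e0]
    simp [Fin.sum_univ_four, dis, hc]
    ring
  · change g 1 = 0 at hc
    change _ = 6 * ∏ d ∈ univ.erase (1 : Fin 4), g d
    rw [e1]
    simp [Fin.sum_univ_four, dis, hc]
    ring
  · change g 2 = 0 at hc
    change _ = 6 * ∏ d ∈ univ.erase (2 : Fin 4), g d
    rw [e2]
    simp [Fin.sum_univ_four, dis, hc]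
    ring
  · change g 3 = 0 at hc
    change _ = 6 * ∏ d ∈ univ.erase (3 : Fin 4), g d
    rw [e3]
    simp [Fin.sum_univ_four, dis, hc]
    ring

theorem sum_w1 (G : L1 → ℝ) : ∑ a, ∑ b, ∑ e, w1 a b e * (G a * G b * G e) =
    6 * ∑ c, ∏ d ∈ univ.erase c, mm G d c := by
  have h1 : ∑ a, ∑ b, ∑ e, w1 a b e * (G a * G b * G e) =
      ∑ c, ∑ a : L1, ∑ b : L1, ∑ e : L1, dis a.1 b.1 e.1 *
        ((dl (vc a) c * G a) * (dl (vc b) c * G b) * (dl (vc e) c * G e)) := by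
    rw [sum_comm]
    refine Eq.symm ?_
    rw [sum_comm]
    rw [sum_comm (s := (univ : Finset L1)) (t := (univ : Finset L1))]
    refine sum_congr rfl fun a _ => ?_
    rw [sum_comm]
    refine sum_congr rfl fun b _ => ?_
    rw [sum_comm]
    refine sum_congr rfl fun e _ => ?_
    rw [w1_eq, sum_mul]
    refine sum_congr rfl fun c _ => ?_
    ring
  rw [h1, mul_sum]
  refine sum_congr rfl fun c _ => ?_
  rw [tri dis (fun a => dl (vc a) c * G a)]
  have h2 : ∀ d, ∑ j, (fun a : L1 => dl (vc a) c * G a) (d, j) = mm G d c := by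
    intro d
    unfold mm
    refine sum_congr rfl fun j _ => ?_
    unfold dl vc
    by_cases h : d.succAbove j = c
    · simp [h]
    · simp [h]
  simp only [h2]
  exact six (fun d => mm G d c) c (mm_self G c)

end comb

section main

variable (x : L1 × L1 → ℝ)

/-- contraction of the second index -/
noncomputable def Z (a' i : L1) : ℂ := ∑ i', S1 a' i' * (x (i, i') : ℂ)

/-- row mean -/
noncomputable def mu (d : Fin 4) (i : L1) : ℝ := (∑ j : Fin 3, x (i, (d, j))) / 3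

/-- row -/
def row (d : Fin 4) (j : Fin 3) (i : L1) : ℝ := x (i, (d, j))

theorem m2_l (a a' : L1) : m2.l (a, a') x = m1.lc a (Z x a') := by
  unfold Mdl.l Mdl.lc
  rw [Fintype.sum_prod_type]
  refine sum_congr rfl fun i _ => ?_
  unfold Z
  rw [mul_sum]
  refine sum_congr rfl fun i' _ => ?_
  change m1.S a i * m1.S a' i' * (x (i, i') : ℂ) = m1.S a i * (S1 a' i' * (x (i, i') : ℂ))
  change m1.S a i * S1 a' i' * (x (i, i') : ℂ) = m1.S a i * (S1 a' i' * (x (i, i') : ℂ))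
  ring

theorem m2_P : m2.P x = ∑ a', ∑ b', ∑ c', (w1 a' b' c' : ℂ) *
    m1.Tc (Z x a') (Z x b') (Z x c') := by
  unfold Mdl.P Mdl.T
  rw [Fintype.sum_prod_type_right]
  refine sum_congr rfl fun a' _ => ?_
  have h1 : ∀ a : L1, ∑ b : L1 × L1, ∑ c : L1 × L1, (m2.w (a, a') b c : ℂ) * m2.l (a, a') x *
      m2.l b x * m2.l c x = ∑ b', ∑ c', ∑ b, ∑ c, (m2.w (a, a') (b, b') (c, c') : ℂ) *
        m2.l (a, a') x * m2.l (b, b') x * m2.l (c, c') x := by
    intro a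
    rw [Fintype.sum_prod_type_right]
    refine sum_congr rfl fun b' _ => ?_
    have h2 : ∀ b : L1, ∑ c : L1 × L1, (m2.w (a, a') (b, b') c : ℂ) * m2.l (a, a') x *
        m2.l (b, b') x * m2.l c x = ∑ c', ∑ c, (m2.w (a, a') (b, b') (c, c') : ℂ) *
          m2.l (a, a') x * m2.l (b, b') x * m2.l (c, c') x := by
      intro b
      rw [Fintype.sum_prod_type_right]
    rw [sum_congr rfl fun b _ => h2 b, sum_comm]
  rw [sum_congr rfl fun a _ => h1 a, sum_comm]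
  refine sum_congr rfl fun b' _ => ?_
  rw [sum_comm]
  refine sum_congr rfl fun c' _ => ?_
  unfold Mdl.Tc
  rw [mul_sum]
  refine sum_congr rfl fun a _ => ?_
  rw [mul_sum]
  refine sum_congr rfl fun b _ => ?_
  rw [mul_sum]
  refine sum_congr rfl fun c _ => ?_
  rw [m2_l, m2_l, m2_l]
  have h3 : m2.w (a, a') (b, b') (c, c') = m1.w a b c * w1 a' b' c' := rfl
  rw [h3]
  push_cast
  ring

theorem Z_eq (d : Fin 4) (j : Fin 3) (i : L1) : Z x (d, j) i =
    ((Real.sqrt 2 * mu x d i : ℝ) : ℂ) + Complex.I * ((x (i, (d, j)) - mu x d i : ℝ) : ℂ) := by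
  unfold Z
  rw [Fintype.sum_prod_type, sum_eq_single d]
  · have h1 : ∀ k : Fin 3, S1 (d, j) (d, k) * (x (i, (d, k)) : ℂ) =
        ((Real.sqrt 2 : ℂ) - Complex.I) / 3 * (x (i, (d, k)) : ℂ) +
          if j = k then Complex.I * (x (i, (d, k)) : ℂ) else 0 := by
      intro k
      unfold S1
      rw [if_pos rfl]
      by_cases h : j = k
      · simp only [h, if_true]
        ring
      · simp only [h, if_false]
        ring
    rw [sum_congr rfl fun k _ => h1 k, sum_add_distrib, ← mul_sum, sum_ite_eq,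
      if_pos (mem_univ _)]
    unfold mu
    push_cast
    ring
  · intro e _ he
    refine sum_eq_zero fun k _ => ?_
    unfold S1
    rw [if_neg (fun h => he h.symm), zero_mul]
  · intro h
    exact absurd (mem_univ d) h

theorem ncq_Z (d : Fin 4) (j : Fin 3) :
    ncq (Z x (d, j)) = 2 * nsq (mu x d) + 8 / 5 * nsq (row x d j - mu x d) := by
  unfold ncq nsq
  have h1 : ∀ i, (Z x (d, j) i).re = Real.sqrt 2 * mu x d i := by
    intro i
    rw [Z_eq]
    simp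
  have h2 : ∀ i, (Z x (d, j) i).im = x (i, (d, j)) - mu x d i := by
    intro i
    rw [Z_eq]
    simp
  have h3 : ∑ i, (Real.sqrt 2 * mu x d i) ^ 2 = 2 * ∑ i, mu x d i ^ 2 := by
    rw [mul_sum]
    refine sum_congr rfl fun i _ => ?_
    rw [mul_pow, Real.sq_sqrt (by norm_num)]
  simp only [h1, h2, Pi.sub_apply, row]
  rw [h3]

theorem ncq_nonneg (z : L1 → ℂ) : 0 ≤ ncq z := by
  unfold ncq
  positivity

theorem nsq_sum : ∑ d : Fin 4, ∑ j : Fin 3, nsq (row x d j) = nsq x := by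
  unfold nsq row
  rw [Fintype.sum_prod_type_right (f := fun p : L1 × L1 => x p ^ 2)]
  rw [Fintype.sum_prod_type (f := fun p : L1 => ∑ i : L1, x (i, p) ^ 2)]

theorem nsq_nonneg {ι : Type} [Fintype ι] (y : ι → ℝ) : 0 ≤ nsq y := by
  unfold nsq
  exact sum_nonneg fun i _ => sq_nonneg _

/-- the data for the inequality for four rows -/
theorem rows (hR : ST_ROWB) (G : L1 → ℝ) (hG : ∀ a, G a = Real.sqrt (ncq (Z x a)))
    (d : Fin 4) : ∑ c ∈ univ.erase d, mm G d c ^ 4 =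
      ∑ j, (2 * nsq (mu x d) + 8 / 5 * nsq (row x d j - mu x d)) ^ 2 ∧
    ∑ j, (2 * nsq (mu x d) + 8 / 5 * nsq (row x d j - mu x d)) ^ 2 ≤
      4 / 3 * (∑ j, nsq (row x d j)) ^ 2 := by
  constructor
  · rw [sum_erase4 (fun c => mm G d c ^ 4) d]
    refine sum_congr rfl fun j _ => ?_
    have h4 : ∀ t : ℝ, 0 ≤ t → Real.sqrt t ^ 4 = t ^ 2 := by
      intro t ht
      nlinarith [Real.sq_sqrt ht]
    rw [mm_succ, hG, h4 _ (ncq_nonneg _), ncq_Z]
  · refine (hR L1 (row x d) (mu x d) fun i => ?_).1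
    unfold mu row
    ring

theorem norm_le (hT : ST_IT) (G : L1 → ℝ) (hG : ∀ a, G a = Real.sqrt (ncq (Z x a))) (a b c : L1) :
    ‖m1.Tc (Z x a) (Z x b) (Z x c)‖ ≤ Real.sqrt (8 / 3) * (G a * G b * G c) := by
  have h := (hT (Z x a) (Z x b) (Z x c)).1
  have h0 : 0 ≤ Real.sqrt (8 / 3) * (G a * G b * G c) := by
    rw [hG, hG, hG]
    positivity
  refine abs_le_of_sq_le_sq' ?_ h0 |>.2
  rw [mul_pow, mul_pow, mul_pow, Real.sq_sqrt (by norm_num), hG, hG, hG,
    Real.sq_sqrt (ncq_nonneg _), Real.sq_sqrt (ncq_nonneg _), Real.sq_sqrt (ncq_nonneg _)]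
  exact h

theorem w1_nonneg (a b c : L1) : 0 ≤ w1 a b c := by
  unfold w1
  split_ifs <;> norm_num

theorem chain (hT : ST_IT) (G : L1 → ℝ) (hG : ∀ a, G a = Real.sqrt (ncq (Z x a))) :
    ‖m2.P x‖ ≤ ∑ a, ∑ b, ∑ c, w1 a b c * ‖m1.Tc (Z x a) (Z x b) (Z x c)‖ ∧
    (∀ a b c, w1 a b c * ‖m1.Tc (Z x a) (Z x b) (Z x c)‖ ≤
      w1 a b c * (Real.sqrt (8 / 3) * (G a * G b * G c))) ∧
    ∑ a, ∑ b, ∑ c, w1 a b c * (Real.sqrt (8 / 3) * (G a * G b * G c)) =
      6 * Real.sqrt (8 / 3) * ∑ c, ∏ d ∈ univ.erase c, mm G d c := by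
  refine ⟨?_, fun a b c => mul_le_mul_of_nonneg_left (norm_le x hT G hG a b c) (w1_nonneg a b c),
    ?_⟩
  · rw [m2_P]
    refine (norm_sum_le _ _).trans (sum_le_sum fun a _ => ?_)
    refine (norm_sum_le _ _).trans (sum_le_sum fun b _ => ?_)
    refine (norm_sum_le _ _).trans (sum_le_sum fun c _ => ?_)
    rw [norm_mul, Complex.norm_real, Real.norm_of_nonneg (w1_nonneg a b c)]
  · have h := sum_w1 G
    have h1 : ∑ a, ∑ b, ∑ c, w1 a b c * (Real.sqrt (8 / 3) * (G a * G b * G c)) =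
        Real.sqrt (8 / 3) * ∑ a, ∑ b, ∑ c, w1 a b c * (G a * G b * G c) := by
      rw [mul_sum]
      refine sum_congr rfl fun a _ => ?_
      rw [mul_sum]
      refine sum_congr rfl fun b _ => ?_
      rw [mul_sum]
      refine sum_congr rfl fun c _ => ?_
      ring
    rw [h1, h]
    ring

theorem ex_w1 (d : Fin 4) : ∃ (j : Fin 3) (b c : L1), w1 (d, j) b c = 1 := by
  fin_cases d
  · refine ⟨2, (1, 2), (2, 2), ?_⟩
    unfold w1
    rw [if_pos (by decide)]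
  · refine ⟨2, (0, 2), (2, 2), ?_⟩
    unfold w1
    rw [if_pos (by decide)]
  · refine ⟨2, (0, 2), (1, 2), ?_⟩
    unfold w1
    rw [if_pos (by decide)]
  · refine ⟨0, (1, 0), (2, 0), ?_⟩
    unfold w1
    rw [if_pos (by decide)]

theorem bound (hT : ST_IT) (hR : ST_ROWB) (hH : ST_HOLD) : ‖m2.P x‖ ^ 2 ≤ (8 / 3) ^ 2 * nsq x ^ 3 ∧
    (‖m2.P x‖ ^ 2 = (8 / 3) ^ 2 * nsq x ^ 3 →
      (∀ d : Fin 4, ∑ j, nsq (row x d j) = nsq x / 4) ∧ (∀ d j, row x d j = mu x d) ∧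
      ∀ a b c, w1 a b c = 1 → ‖m1.Tc (Z x a) (Z x b) (Z x c)‖ ^ 2 =
        8 / 3 * (ncq (Z x a) * ncq (Z x b) * ncq (Z x c))) := by
  set G : L1 → ℝ := fun a => Real.sqrt (ncq (Z x a)) with hGd
  have hG : ∀ a, G a = Real.sqrt (ncq (Z x a)) := fun a => rfl
  have hG0 : ∀ a, 0 ≤ G a := fun a => Real.sqrt_nonneg _
  obtain ⟨c1, c2, c3⟩ := chain x hT G hG
  set S := ∑ c, ∏ d ∈ univ.erase c, mm G d c with hS
  have hS0 : 0 ≤ S := sum_nonneg fun c _ => prod_nonneg fun d _ => mm_nonneg G hG0 d c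
  obtain ⟨H1, H2⟩ := hH (mm G) (fun d => ∑ j, nsq (row x d j)) (mm_nonneg G hG0)
    (fun d => sum_nonneg fun j _ => nsq_nonneg _)
    (fun d => by rw [(rows x hR G hG d).1]; exact (rows x hR G hG d).2)
  rw [nsq_sum, ← hS] at H1 H2
  have c4 : ∑ a, ∑ b, ∑ c, w1 a b c * ‖m1.Tc (Z x a) (Z x b) (Z x c)‖ ≤
      6 * Real.sqrt (8 / 3) * S := by
    rw [← c3]
    exact sum_le_sum fun a _ => sum_le_sum fun b _ => sum_le_sum fun c _ => c2 a b c
  have c5 : ‖m2.P x‖ ≤ 6 * Real.sqrt (8 / 3) * S := c1.trans c4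
  have hK : Real.sqrt (8 / 3) ^ 2 = 8 / 3 := Real.sq_sqrt (by norm_num)
  have c6 : ‖m2.P x‖ ^ 2 ≤ 96 * S ^ 2 := by
    have h := pow_le_pow_left₀ (norm_nonneg _) c5 2
    have h1 : (6 * Real.sqrt (8 / 3) * S) ^ 2 = 96 * S ^ 2 := by
      rw [mul_pow, mul_pow, hK]
      ring
    rwa [h1] at h
  refine ⟨by nlinarith, fun he => ?_⟩
  have h7 : S ^ 2 = 2 / 27 * nsq x ^ 3 := by
    refine le_antisymm H1 ?_
    rw [he] at c6
    nlinarith
  have h8 := H2 h7
  refine ⟨fun d => (h8 d).1, fun d j => ?_, ?_⟩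
  · refine (hR L1 (row x d) (mu x d) fun i => ?_).2 ?_ j
    · unfold mu row
      ring
    · rw [← (rows x hR G hG d).1]
      exact (h8 d).2
  · have h9 : ‖m2.P x‖ = 6 * Real.sqrt (8 / 3) * S := by
      refine le_antisymm c5 ?_
      refine abs_le_of_sq_le_sq' ?_ (norm_nonneg _) |>.2
      rw [he, mul_pow, mul_pow, hK, h7]
      ring_nf
      exact le_rfl
    have h10 : ∑ a, ∑ b, ∑ c, (w1 a b c * (Real.sqrt (8 / 3) * (G a * G b * G c)) -
        w1 a b c * ‖m1.Tc (Z x a) (Z x b) (Z x c)‖) = 0 := by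
      simp only [sum_sub_distrib]
      rw [c3]
      linarith [h9, c1, c4]
    have n1 : ∀ a b c, 0 ≤ w1 a b c * (Real.sqrt (8 / 3) * (G a * G b * G c)) -
        w1 a b c * ‖m1.Tc (Z x a) (Z x b) (Z x c)‖ := fun a b c => sub_nonneg.2 (c2 a b c)
    intro a b c hw
    have h11 := (sum_eq_zero_iff_of_nonneg fun a _ => sum_nonneg fun b _ =>
      sum_nonneg fun c _ => n1 a b c).1 h10 a (mem_univ a)
    have h12 := (sum_eq_zero_iff_of_nonneg fun b _ =>
      sum_nonneg fun c _ => n1 a b c).1 h11 b (mem_univ b)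
    have h13 := (sum_eq_zero_iff_of_nonneg fun c _ => n1 a b c).1 h12 c (mem_univ c)
    rw [hw, one_mul, one_mul] at h13
    have h14 : ‖m1.Tc (Z x a) (Z x b) (Z x c)‖ = Real.sqrt (8 / 3) * (G a * G b * G c) := by
      linarith
    rw [h14, mul_pow, mul_pow, mul_pow, hK, hG, hG, hG, Real.sq_sqrt (ncq_nonneg _),
      Real.sq_sqrt (ncq_nonneg _), Real.sq_sqrt (ncq_nonneg _)]

theorem lc_const (a : L1) (α : ℂ) : m1.lc a (fun _ => α) = α * m1.lc a (fun _ => 1) := by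
  unfold Mdl.lc
  rw [mul_sum]
  refine sum_congr rfl fun i _ => ?_
  ring

theorem Tc_const (α β γ : ℂ) : m1.Tc (fun _ => α) (fun _ => β) (fun _ => γ) =
    α * β * γ * m1.Tc (fun _ => 1) (fun _ => 1) (fun _ => 1) := by
  unfold Mdl.Tc
  rw [mul_sum]
  refine sum_congr rfl fun a _ => ?_
  rw [mul_sum]
  refine sum_congr rfl fun b _ => ?_
  rw [mul_sum]
  refine sum_congr rfl fun c _ => ?_
  rw [lc_const a α, lc_const b β, lc_const c γ]
  ring

theorem IB (hT : ST_IT) (hR : ST_ROWB) (hH : ST_HOLD) (hA : ST_IA) : ST_IB := by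
  intro x
  refine ⟨(bound x hT hR hH).1, fun he => ?_⟩
  by_cases h0 : nsq x = 0
  · refine ⟨0, ?_⟩
    funext p
    have h1 := (sum_eq_zero_iff_of_nonneg fun i _ => sq_nonneg (x i)).1 h0 p (mem_univ p)
    rw [zero_smul]
    exact pow_eq_zero_iff (two_ne_zero) |>.1 h1
  obtain ⟨e1, e2, e3⟩ := (bound x hT hR hH).2 he
  have hmu : ∀ d, nsq (mu x d) = nsq x / 12 := by
    intro d
    have h1 := e1 d
    rw [sum_congr rfl fun j _ => by rw [e2 d j]] at h1
    rw [sum_const, card_univ, Fintype.card_fin, nsmul_eq_mul] at h1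
    push_cast at h1
    linarith
  have hZ : ∀ a, ncq (Z x a) ≠ 0 := by
    rintro ⟨d, j⟩
    rw [ncq_Z, e2 d j, sub_self, hmu]
    have h1 : nsq (0 : L1 → ℝ) = 0 := by
      unfold nsq
      simp
    rw [h1]
    intro h2
    apply h0
    linarith
  have ht : ∀ d, ∃ t : ℝ, ∀ i, mu x d i = t := by
    intro d
    obtain ⟨j, b, c, hw⟩ := ex_w1 d
    obtain ⟨⟨s, hs⟩, -⟩ := (hT (Z x (d, j)) (Z x b) (Z x c)).2 (e3 _ b c hw) (hZ _) (hZ b) (hZ c)
    refine ⟨s / Real.sqrt 2, fun i => ?_⟩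
    have h1 := congrArg Complex.re (congrFun hs i)
    rw [Z_eq] at h1
    simp at h1
    have h2 : Real.sqrt 2 ≠ 0 := by positivity
    field_simp
    linarith
  choose t ht using ht
  have hx : ∀ i i' : L1, x (i, i') = t i'.1 := by
    rintro i ⟨d, j⟩
    have h1 := congrFun (e2 d j) i
    rw [ht] at h1
    exact h1
  set z : L1 → ℂ := fun a => (t a.1 : ℂ) with hz
  have hlc : ∀ a, Z x a = fun _ => m1.lc a z := by
    intro a
    funext i
    unfold Z Mdl.lc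
    refine sum_congr rfl fun i' _ => ?_
    rw [hx]
    rfl
  have hP : m2.P x = m1.Tc (fun _ => 1) (fun _ => 1) (fun _ => 1) * m1.Tc z z z := by
    rw [m2_P]
    have h1 : m1.Tc z z z = ∑ a, ∑ b, ∑ c, (w1 a b c : ℂ) * m1.lc a z * m1.lc b z * m1.lc c z :=
      rfl
    rw [h1, mul_sum]
    refine sum_congr rfl fun a _ => ?_
    rw [mul_sum]
    refine sum_congr rfl fun b _ => ?_
    rw [mul_sum]
    refine sum_congr rfl fun c _ => ?_
    rw [hlc a, hlc b, hlc c, Tc_const]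
    ring
  have hn1 : ncq (fun _ : L1 => (1 : ℂ)) = 12 := by
    unfold ncq
    simp
  have hnz : nsq x = 12 * ncq z := by
    have h1 : ncq z = ∑ i : L1, t i.1 ^ 2 := by
      unfold ncq
      simp [hz]
    rw [h1]
    unfold nsq
    rw [Fintype.sum_prod_type (f := fun p : L1 × L1 => x p ^ 2)]
    simp only [hx]
    rw [sum_const, card_univ, nsmul_eq_mul]
    norm_num
  have b1 := (hA (fun _ => 1)).1
  rw [hn1] at b1
  have b2 := (hA z).1
  have b3 : ‖m1.Tc z z z‖ ^ 2 = 8 / 3 * ncq z ^ 3 := by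
    refine le_antisymm b2 ?_
    rw [hP, norm_mul, mul_pow, hnz] at he
    have h1 : 0 ≤ ‖m1.Tc z z z‖ ^ 2 := sq_nonneg _
    have h2 := mul_le_mul_of_nonneg_right b1 h1
    rw [he] at h2
    nlinarith
  obtain ⟨s, hs⟩ := (hA z).2 b3
  refine ⟨12 * s, ?_⟩
  funext p
  obtain ⟨i, i'⟩ := p
  have h1 := congrFun hs i'
  simp only [hz] at h1
  have h2 : t i'.1 = s := by exact_mod_cast h1
  rw [hx, h2]
  unfold u2
  simp
  ring

end main

end Pool.Agent.Helper91.T4
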